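import Mathlib
import Pool.Agent.Zk12.TConc
import Pool.Agent.Zk12.Two

/-!
# Birational sections of almost all quadratic twists: statements of the parts
-/

set_option autoImplicit false
set_option linter.all false

open NumberField IsDedekindDomain

namespace Pool.Agent.Zk12.BS

open Pool.Agent.TH954 Pool.Agent.Zk12 Pool.Agent.Y157.PS

/-- **part G (good places)**: at a valuation ring of `L` with finite residue field in which `6` is
invertible, `(t - 1) / (t + 1)` is a unit -/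
def S_GP : Prop :=
  ∀ (L : Type) [Field L] [CharZero L] [Algebra ℚ L] (k : Subfield L),
    (∀ y : L, y ^ 2 ∈ k → y ∈ k) → ClsE k → Plc ℚ L ℚ_[2] → ∀ t D : L, t ∉ k →
    (∃ q, t - 1 = D * q ^ 2) → (∃ q, t + 1 = D * q ^ 2) → (∃ q, t - 3 = D * q ^ 2) →
    (∃ q, t + 3 = D * q ^ 2) →
    ∀ O : ValuationSubring L, Finite (IsLocalRing.ResidueField O) → IsU O (6 : L) →
      IsU O ((t - 1) / (t + 1))

/-- **part U (units)**: an element which is, for all `n`, a rational number times an `n`-th power,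
which is a unit at all `p ≥ 5`, finite and not zero at `3`, and `1` at `2`, is `1` at all `p` -/
def S_UT : Prop :=
  ∀ (L : Type) [Field L] [CharZero L] [Algebra ℚ L]
    (pl : ∀ (p : ℕ) [Fact p.Prime], Plc ℚ L ℚ_[p]) (f : L), f ≠ 0 →
    (∀ n : ℕ, 0 < n → ∃ (c : ℚ) (w : L), f = algebraMap ℚ L c * w ^ n) →
    (∀ (p : ℕ) [Fact p.Prime], ∃ c : ℚ_[p], c ≠ 0 ∧ (pl p).val f c ∧ (5 ≤ p → ‖c‖ = 1) ∧
      (p = 2 → c = 1)) →
    ∀ (p : ℕ) [Fact p.Prime], (pl p).val f 1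

/-- **part L**: the theorem over the fixed field -/
def S_BL : Prop :=
  ∀ (L : Type) [Field L] [CharZero L] [Algebra ℚ L] (k : Subfield L),
    (∀ y : L, y ^ 2 ∈ k → y ∈ k) → ClsE k →
    (∀ z : L, z ≠ 0 → ∀ n : ℕ, 0 < n → ∃ (c : ℚ) (w : L), z = algebraMap ℚ L c * w ^ n) →
    ∀ (pl : ∀ (p : ℕ) [Fact p.Prime], Plc ℚ L ℚ_[p]) (t D : L), t ∉ k →
    (∃ q, t - 1 = D * q ^ 2) → (∃ q, t + 1 = D * q ^ 2) → (∃ q, t - 3 = D * q ^ 2) →
    (∃ q, t + 3 = D * q ^ 2) → ∀ (p : ℕ) [Fact p.Prime], t ∉ (pl p).W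

/-- **part L'**: the theorem over the fixed field, with Kummer theory only for `(t - 1) / (t + 1)` -/
def S_BL2 : Prop :=
  ∀ (L : Type) [Field L] [CharZero L] [Algebra ℚ L] (k : Subfield L),
    (∀ y : L, y ^ 2 ∈ k → y ∈ k) → ClsE k →
    ∀ (pl : ∀ (p : ℕ) [Fact p.Prime], Plc ℚ L ℚ_[p]) (t D : L), t ∉ k →
    (∀ n : ℕ, 0 < n → ∃ (c : ℚ) (w : L), (t - 1) / (t + 1) = algebraMap ℚ L c * w ^ n) →
    (∃ q, t - 1 = D * q ^ 2) → (∃ q, t + 1 = D * q ^ 2) → (∃ q, t - 3 = D * q ^ 2) →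
    (∃ q, t + 3 = D * q ^ 2) → ∀ (p : ℕ) [Fact p.Prime], t ∉ (pl p).W

/-- the four values of `t` at the branch points of the progression -/
def T4 : List ℤ := [1, -1, 3, -3]

/-- **part G2 (good places)**: at a valuation ring of `L` with finite residue field in which `6` is
invertible, the quotients `(t - a) / (t - b)`, `a, b ∈ {1, -1, 3, -3}`, are units -/
def S_GP2 : Prop :=
  ∀ (L : Type) [Field L] [CharZero L] [Algebra ℚ L] (k : Subfield L),
    (∀ y : L, y ^ 2 ∈ k → y ∈ k) → ClsE k → Plc ℚ L ℚ_[2] → ∀ t D : L, t ∉ k →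
    (∃ q, t - 1 = D * q ^ 2) → (∃ q, t + 1 = D * q ^ 2) → (∃ q, t - 3 = D * q ^ 2) →
    (∃ q, t + 3 = D * q ^ 2) →
    ∀ O : ValuationSubring L, Finite (IsLocalRing.ResidueField O) → IsU O (6 : L) →
      ∀ a ∈ T4, ∀ b ∈ T4, IsU O ((t - a) / (t - b))

/-- **part L3**: the theorem over the fixed field, with Kummer theory only for one of the quotients
`(t - a) / (t - b)`, `a, b ∈ {1, -1, 3, -3}`, `a ≠ b` -/
def S_BL3 : Prop :=
  ∀ (L : Type) [Field L] [CharZero L] [Algebra ℚ L] (k : Subfield L),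
    (∀ y : L, y ^ 2 ∈ k → y ∈ k) → ClsE k →
    ∀ (pl : ∀ (p : ℕ) [Fact p.Prime], Plc ℚ L ℚ_[p]) (t D : L), t ∉ k →
    (∃ a ∈ T4, ∃ b ∈ T4, a ≠ b ∧ ∀ n : ℕ, 0 < n → ∃ (c : ℚ) (w : L),
      (t - a) / (t - b) = algebraMap ℚ L c * w ^ n) →
    (∃ q, t - 1 = D * q ^ 2) → (∃ q, t + 1 = D * q ^ 2) → (∃ q, t - 3 = D * q ^ 2) →
    (∃ q, t + 3 = D * q ^ 2) → ∀ (p : ℕ) [Fact p.Prime], t ∉ (pl p).W

/-- **part K (Kummer theory)**: for a birational section all elements of the fixed field are rational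
numbers times `n`-th powers -/
def S_KU : Prop :=
  ∀ (F Ω B : Type) [Field F] [Field Ω] [Field B] [Algebra ℚ F] [Algebra F Ω] [Algebra ℚ Ω]
    [Algebra ℚ B] [IsScalarTower ℚ F Ω] [IsAlgClosure F Ω] [IsAlgClosure ℚ B]
    (s : GalSection ℚ F Ω B) (z : Ω), (∀ g, s.s g z = z) → z ≠ 0 → ∀ n : ℕ, 0 < n →
      ∃ (c : ℚ) (w : Ω), (∀ g, s.s g w = w) ∧ z = algebraMap ℚ Ω c * w ^ n

open Pool.Agent.W620.SC in
/-- **part K2 (Kummer theory)**: a function on the curve without zeros and poles in `U` is, along a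
section of `Gal(F_U/F)`, a rational number times an `n`-th power -/
def S_KU2 : Prop :=
  ∀ (F Ω M B : Type) [Field F] [Field Ω] [Field M] [Field B] [Algebra ℚ F] [Algebra F Ω]
    [Algebra ℚ Ω] [Algebra F M] [Algebra ℚ M] [Algebra ℚ B] [IsScalarTower ℚ F Ω]
    [IsScalarTower ℚ F M] [IsAlgClosure F Ω] [IsAlgClosure ℚ B] (U : Set (ValuationSubring F))
    (ι : M →ₐ[F] Ω), (∀ O ∈ U, ∀ c : ℚ, algebraMap ℚ F c ∈ O) →
    ι.fieldRange = unramified F Ω U → ∀ (s : GalSection ℚ F M B) (f : F), f ≠ 0 →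
    (∀ O ∈ U, IsU O f) → ∀ n : ℕ, 0 < n →
      ∃ (c : ℚ) (w : M), (∀ g, s.s g w = w) ∧ algebraMap F M f = algebraMap ℚ M c * w ^ n

end Pool.Agent.Zk12.BS
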